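import Pool.Agent.Helper5.PH.Defs

/-!
# Module GT of MP_d3b2ba_co: typed two-sided growth
-/

set_option autoImplicit false

namespace Pool.Agent.Helper5.PH

open Pool.Agent.Helper25.PF

lemma gt_psi_lt (u : ℕ) : psi u < 3 := Nat.mod_lt _ (by norm_num)

lemma gt_count_range (c : ℕ) (hc : c < 3) (x : ℕ) :
    ((Finset.range x).filter (fun u => psi u = c)).card =
      7 * (x / 21) + (x % 21 + 2 - (c + 1 + x / 21) % 3) / 3 := by
  induction x with
  | zero => simp; omega
  | succ x ih =>
    rw [Finset.range_add_one, Finset.filter_insert]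
    have hx : x ∉ (Finset.range x).filter (fun u => psi u = c) := by simp
    obtain ⟨m, s, r, hs, hr, rfl⟩ : ∃ m s r, s < 3 ∧ r < 21 ∧ x = 21 * (3 * m + s) + r :=
      ⟨x / 63, x / 21 % 3, x % 21, by omega, by omega, by omega⟩
    have e1 : (21 * (3 * m + s) + r) / 21 = 3 * m + s := by omega
    have e2 : (21 * (3 * m + s) + r) % 21 = r := by omega
    rw [e1, e2] at ih
    have e3 : (c + 1 + (3 * m + s)) % 3 = (c + 1 + s) % 3 := by omega
    rw [e3] at ih
    have e4 : psi (21 * (3 * m + s) + r) = (2 + 2 * s + r) % 3 := by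
      unfold psi
      rw [e1]
      omega
    have e5 : 7 * ((21 * (3 * m + s) + r + 1) / 21) + ((21 * (3 * m + s) + r + 1) % 21 + 2 -
        (c + 1 + (21 * (3 * m + s) + r + 1) / 21) % 3) / 3 =
        if r = 20 then 7 * (3 * m + s + 1) + (2 - (c + 2 + s) % 3) / 3 else
          7 * (3 * m + s) + (r + 3 - (c + 1 + s) % 3) / 3 := by
      by_cases hr20 : r = 20
      · subst hr20
        rw [if_pos rfl]
        have a1 : (21 * (3 * m + s) + 20 + 1) / 21 = 3 * m + s + 1 := by omega
        have a2 : (21 * (3 * m + s) + 20 + 1) % 21 = 0 := by omega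
        have a3 : (c + 1 + (3 * m + s + 1)) % 3 = (c + 2 + s) % 3 := by omega
        rw [a1, a2, a3]
      · rw [if_neg hr20]
        have a1 : (21 * (3 * m + s) + r + 1) / 21 = 3 * m + s := by omega
        have a2 : (21 * (3 * m + s) + r + 1) % 21 = r + 1 := by omega
        rw [a1, a2, e3]
    rw [e5]
    by_cases h : psi (21 * (3 * m + s) + r) = c
    · rw [if_pos h, Finset.card_insert_of_notMem hx, ih]
      rw [e4] at h
      clear e1 e2 e3 e4 e5 ih hx
      interval_cases s <;> interval_cases c <;> (split_ifs <;> omega)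
    · rw [if_neg h, ih]
      rw [e4] at h
      clear e1 e2 e3 e4 e5 ih hx
      interval_cases s <;> interval_cases c <;> (split_ifs <;> omega)

lemma gt_count (c : ℕ) (hc : c < 3) (s l : ℕ) :
    ((Finset.Ico s (s + l)).filter (fun u => psi u = c)).card ≤ (l + 4) / 3 := by
  have h1 := gt_count_range c hc s
  have h2 := gt_count_range c hc (s + l)
  have h3 : (Finset.range (s + l)).filter (fun u => psi u = c) =
      (Finset.range s).filter (fun u => psi u = c) ∪
        (Finset.Ico s (s + l)).filter (fun u => psi u = c) := by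
    ext u
    simp only [Finset.mem_filter, Finset.mem_range, Finset.mem_union, Finset.mem_Ico]
    constructor
    · rintro ⟨h4, h5⟩
      by_cases h6 : u < s
      · exact Or.inl ⟨h6, h5⟩
      · exact Or.inr ⟨⟨by omega, h4⟩, h5⟩
    · rintro (⟨h4, h5⟩ | ⟨⟨h4, h5⟩, h6⟩)
      · exact ⟨by omega, h5⟩
      · exact ⟨h5, h6⟩
  have h4 : Disjoint ((Finset.range s).filter (fun u => psi u = c))
      ((Finset.Ico s (s + l)).filter (fun u => psi u = c)) := by
    rw [Finset.disjoint_left]
    intro u hu hu'
    simp only [Finset.mem_filter, Finset.mem_range, Finset.mem_Ico] at hu hu'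
    omega
  rw [h3, Finset.card_union_of_disjoint h4, h1] at h2
  omega

variable {α : Type} [DecidableEq α]

lemma gt_letters (ty : α → ℕ) {C : ℕ} {v : List α}
    (hv : ∀ i a, v[i]? = some a → ty a = psi (C - i)) (hC : v.length ≤ C) (m c : ℕ)
    (hc : c < 3) :
    ((v.reverse.take m).toFinset.filter (fun a => ty a = c)).card
      ≤ (min m v.length + 4) / 3 := by
  set t := v.length with ht
  set l := min m t with hl
  have h1 := gt_count c hc (C + 1 - t) l
  refine le_trans ?_ h1
  have hinj : Function.Injective (some : α → Option α) := Option.some_injective α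
  rw [← Finset.card_image_of_injective _ hinj]
  refine (Finset.card_le_card (t := ((Finset.Ico (C + 1 - t) (C + 1 - t + l)).filter
    (fun u => psi u = c)).image (fun u => v[C - u]?)) ?_).trans Finset.card_image_le
  intro o ho
  rw [Finset.mem_image] at ho
  obtain ⟨a, ha, rfl⟩ := ho
  rw [Finset.mem_filter, List.mem_toFinset] at ha
  obtain ⟨ha, hac⟩ := ha
  rw [List.mem_iff_getElem] at ha
  obtain ⟨j, hj, hja⟩ := ha
  rw [List.length_take, List.length_reverse] at hj
  have hj' : j < l := hj
  have hjt : j < t := by omega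
  rw [List.getElem_take, List.getElem_reverse] at hja
  have hget : v[t - 1 - j]? = some a := by
    rw [List.getElem?_eq_getElem (by omega), hja]
  rw [Finset.mem_image]
  refine ⟨C - (t - 1 - j), ?_, ?_⟩
  · rw [Finset.mem_filter, Finset.mem_Ico]
    refine ⟨⟨by omega, by omega⟩, ?_⟩
    rw [← hv _ _ hget, hac]
  · have : C - (C - (t - 1 - j)) = t - 1 - j := by omega
    simp only [this, hget]

lemma gt_card [Fintype α] {N : ℕ} (hN : 1 ≤ N) (hN3 : 3 ∣ N)
    (hcard : N + 18 ≤ Fintype.card α) (ty : α → ℕ)
    (htc : ∀ c, c < 3 → Fintype.card α / 3 ≤ (Finset.univ.filter (fun a => ty a = c)).card)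
    {X : List α}
    (hX : ∀ u c, ((X.take u).toFinset.filter (fun a => ty a = c)).card ≤ (u + 2) / 3)
    {C : ℕ} {v : List α}
    (hv : ∀ i a, v[i]? = some a → ty a = psi (C - i)) (hC : v.length ≤ C) (c : ℕ) (hc : c < 3) :
    5 ≤ ((Finset.univ.filter (fun a => ty a = c)) \
      ((v.reverse ++ X).take (N - 1)).toFinset).card := by
  obtain ⟨N', rfl⟩ := hN3
  have h1 := htc c hc
  have h2 := gt_letters ty hv hC (3 * N' - 1) c hc
  have h3 := hX (3 * N' - 1 - v.length) c
  have h4 : (Finset.univ.filter (fun a => ty a = c)) ∩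
      ((v.reverse ++ X).take (3 * N' - 1)).toFinset ⊆
      ((v.reverse.take (3 * N' - 1)).toFinset.filter (fun a => ty a = c)) ∪
      ((X.take (3 * N' - 1 - v.length)).toFinset.filter (fun a => ty a = c)) := by
    intro a ha
    rw [Finset.mem_inter, Finset.mem_filter, List.mem_toFinset, List.take_append,
      List.mem_append, List.length_reverse] at ha
    rw [Finset.mem_union, Finset.mem_filter, Finset.mem_filter, List.mem_toFinset,
      List.mem_toFinset]
    rcases ha.2 with h | h
    · exact Or.inl ⟨h, ha.1.2⟩
    · exact Or.inr ⟨h, ha.1.2⟩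
  have h5 := (Finset.card_le_card h4).trans (Finset.card_union_le _ _)
  have h6 := Finset.card_sdiff_add_card_inter (Finset.univ.filter (fun a => ty a = c))
    ((v.reverse ++ X).take (3 * N' - 1)).toFinset
  omega

/-- Module GT. Typed two-sided growth. -/
theorem growth_typed {α : Type} [Fintype α] [DecidableEq α] {e : ℕ → ℕ} (he0 : e 0 = 0)
    (hsup : ∀ a b, e a + e b ≤ e (a + b)) (hle : ∀ a, e a ≤ a) {n0 : ℕ} (hn0 : 80 ≤ e n0)
    {q N : ℕ} (hq : ∀ p, e p = 0 → p ≤ q) (hqN : q < N) (hN3 : 3 ∣ N)
    (hcard : N + 18 ≤ Fintype.card α) {D : List α} (hD : Good e n0 D) (hND : N ≤ D.length)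
    (ty : α → ℕ)
    (htc : ∀ c, c < 3 → Fintype.card α / 3 ≤ (Finset.univ.filter (fun a => ty a = c)).card)
    (hL : ∀ u c, ((D.take u).toFinset.filter (fun a => ty a = c)).card ≤ (u + 2) / 3)
    (hR : ∀ u c, ((D.reverse.take u).toFinset.filter (fun a => ty a = c)).card ≤ (u + 2) / 3)
    (C1 C2 T : ℕ) (hC1 : T ≤ C1 + 1) (hC2 : T ≤ C2 + 1) :
    ∃ y v : List α, y.length = T ∧ v.length = T ∧
      (∀ i a, y[i]? = some a → ty a = psi (C2 - i)) ∧
      (∀ i a, v[i]? = some a → ty a = psi (C1 - i)) ∧
      (∀ i j, i < j → j < i + N → j < T → y[i]? ≠ y[j]?) ∧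
      (∀ i j, i < j → j < i + N → j < T → v[i]? ≠ v[j]?) ∧
      KF e (y.reverse ++ D ++ v) := by
  -- extension of a typed word
  have hext : ∀ (X : List α) (C t : ℕ) (v : List α) (c : α), v.length = t →
      (∀ i a, v[i]? = some a → ty a = psi (C - i)) →
      (∀ i j, i < j → j < i + N → j < t → v[i]? ≠ v[j]?) →
      c ∈ (Finset.univ.filter (fun a => ty a = psi (C - t))) \
        ((v.reverse ++ X).take (N - 1)).toFinset →
      (∀ i a, (v ++ [c])[i]? = some a → ty a = psi (C - i)) ∧
      (∀ i j, i < j → j < i + N → j < t + 1 → (v ++ [c])[i]? ≠ (v ++ [c])[j]?) := by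
    intro X C t v c hvl hvt hvd hc
    rw [Finset.mem_sdiff, Finset.mem_filter, List.mem_toFinset, List.take_append,
      List.mem_append] at hc
    obtain ⟨⟨-, hc1⟩, hc2⟩ := hc
    push Not at hc2
    constructor
    · intro i b hb
      rcases lt_or_ge i v.length with hi | hi
      · rw [List.getElem?_append_left hi] at hb
        exact hvt i b hb
      · rw [List.getElem?_append_right hi] at hb
        have h1 : i - v.length = 0 := by
          by_contra hne
          rw [List.getElem?_eq_none (by simp; omega)] at hb
          exact absurd hb (by simp)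
        rw [h1] at hb
        have h2 : i = t := by omega
        rw [h2]
        simp at hb
        rw [← hb]
        exact hc1
    · intro i j hij hjN hjt
      rcases Nat.lt_or_ge j t with h | h
      · rw [List.getElem?_append_left (by omega), List.getElem?_append_left (by omega)]
        exact hvd i j hij hjN h
      · have hj : j = t := by omega
        subst hj
        rw [List.getElem?_append_left (by omega), List.getElem?_append_right (by omega), hvl]
        simp only [Nat.sub_self, List.getElem?_cons_zero]
        intro hcon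
        apply hc2.1
        rw [List.mem_iff_getElem]
        refine ⟨j - 1 - i, ?_, ?_⟩
        · rw [List.length_take, List.length_reverse]
          omega
        · rw [List.getElem_take, List.getElem_reverse]
          have h3 : v.length - 1 - (j - 1 - i) = i := by omega
          rw [List.getElem?_eq_getElem (by omega)] at hcon
          have h4 := Option.some.inj hcon
          simp only [h3, h4]
  have main : ∀ t ≤ T, ∃ y v : List α, y.length = t ∧ v.length = t ∧
      (∀ i a, y[i]? = some a → ty a = psi (C2 - i)) ∧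
      (∀ i a, v[i]? = some a → ty a = psi (C1 - i)) ∧
      (∀ i j, i < j → j < i + N → j < t → y[i]? ≠ y[j]?) ∧
      (∀ i j, i < j → j < i + N → j < t → v[i]? ≠ v[j]?) ∧
      KF e (y.reverse ++ D ++ v) ∧ F e (y.reverse ++ D ++ v) ≤ 4.8 ∧
        F e (y.reverse ++ D ++ v).reverse ≤ 4.8 := by
    intro t
    induction t with
    | zero =>
      intro _
      exact ⟨[], [], rfl, rfl, by simp, by simp, by simp, by simp, by simpa using hD.kf,
        by simpa using hD.left, by simpa using hD.right⟩
    | succ t ih =>
      intro ht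
      obtain ⟨y, v, hy, hv, hyt, hvt, hyd, hvd, hk, hl, hr⟩ := ih (by omega)
      have hlen := hD.len
      have hsub : ∀ (Y : List α), (Y.take q).toFinset ⊆ (Y.take (N - 1)).toFinset := by
        intro Y a ha
        rw [List.mem_toFinset] at ha ⊢
        exact (List.take_sublist_take_left (by omega)).subset ha
      obtain ⟨c, hc, hkc, hFc, hFcr⟩ := right_step he0 hsup hle hn0 hq hk
        (by simp only [List.length_append]; omega) (by linarith)
        ((Finset.univ.filter (fun a => ty a = psi (C1 - t))) \
          ((v.reverse ++ D.reverse).take (N - 1)).toFinset) (by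
          have e1 : (y.reverse ++ D ++ v).reverse = (v.reverse ++ D.reverse) ++ y := by simp
          have e4 : ((v.reverse ++ D.reverse) ++ y).take q = (v.reverse ++ D.reverse).take q :=
            List.take_append_of_le_length (by simp; omega)
          rw [e1, e4]
          have h5 := gt_card (by omega) hN3 hcard ty htc hR hvt (by omega) (psi (C1 - t))
            (gt_psi_lt _)
          rw [sdiff_sdiff_left, Finset.sup_eq_union,
            Finset.union_eq_left.2 (hsub _)]
          exact h5)
      have e2 : y.reverse ++ D ++ v ++ [c] = y.reverse ++ D ++ (v ++ [c]) := by simp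
      rw [e2] at hkc hFc hFcr
      obtain ⟨a, ha, hka, hFa, hFar⟩ := left_step he0 hsup hle hn0 hq hkc
        (by simp only [List.length_append]; omega) (by linarith)
        ((Finset.univ.filter (fun a => ty a = psi (C2 - t))) \
          ((y.reverse ++ D).take (N - 1)).toFinset) (by
          have e4 : ((y.reverse ++ D) ++ (v ++ [c])).take q = (y.reverse ++ D).take q :=
            List.take_append_of_le_length (by simp; omega)
          rw [e4]
          have h5 := gt_card (by omega) hN3 hcard ty htc hL hyt (by omega) (psi (C2 - t))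
            (gt_psi_lt _)
          rw [sdiff_sdiff_left, Finset.sup_eq_union,
            Finset.union_eq_left.2 (hsub _)]
          exact h5)
      have e3 : a :: (y.reverse ++ D ++ (v ++ [c])) = (y ++ [a]).reverse ++ D ++ (v ++ [c]) := by
        simp
      rw [e3] at hka hFa hFar
      have hE1 := hext D.reverse C1 t v c hv hvt hvd hc
      have hE2 := hext D C2 t y a hy hyt hyd ha
      refine ⟨y ++ [a], v ++ [c], by simp [hy], by simp [hv], hE2.1, hE1.1, hE2.2, hE1.2, hka,
        ?_, ?_⟩
      · linarith
      · linarith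
  obtain ⟨y, v, h1, h2, h3, h4, h5, h6, h7, -, -⟩ := main T le_rfl
  exact ⟨y, v, h1, h2, h3, h4, h5, h6, h7⟩

end Pool.Agent.Helper5.PH
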